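import Mathlib

set_option autoImplicit false

open Polynomial

namespace Pool.Agent.Results.MP_f79668_an.NotMonotone

/-- `p` has only real zeros (the zero polynomial, which vanishes at `i`, is not allowed) -/
def RealRooted (p : ℝ[X]) : Prop := ∀ z : ℂ, aeval z p = 0 → z.im = 0

/-- `T` preserves hyperbolicity -/
def HyperbolicityPreserver (T : ℝ[X] →ₗ[ℝ] ℝ[X]) : Prop :=
  ∀ p : ℝ[X], RealRooted p → RealRooted (T p)

/-- `T = ∑ Q_k D^k` -/
def Represents (Q : ℕ → ℝ[X]) (T : ℝ[X] →ₗ[ℝ] ℝ[X]) : Prop :=
  ∀ p : ℝ[X], T p = ∑ k ∈ Finset.range (p.natDegree + 1), Q k * derivative^[k] p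

/-- infinite order -/
def InfiniteOrder (Q : ℕ → ℝ[X]) : Prop := {k | Q k ≠ 0}.Infinite

/-- monotone: `deg Q_k ≤ deg Q_{k+1}` for every `k` with `Q_k ≠ 0` -/
def IsMonotone (Q : ℕ → ℝ[X]) : Prop := ∀ k, Q k ≠ 0 → (Q k).degree ≤ (Q (k + 1)).degree

/-- admissible basis: `deg B_k = k` and each `B_k` is an eigenvector of one fixed operator
`∑_{j=1}^M a_j D^j` of order `M ≥ 1` -/
def Admissible (B : ℕ → ℝ[X]) : Prop :=
  (∀ k, (B k).degree = k) ∧ ∃ (M : ℕ) (a : ℕ → ℝ[X]) (a₀ : ℕ → ℝ), 1 ≤ M ∧ a M ≠ 0 ∧
    ∀ k, C (a₀ k) * B k + ∑ j ∈ Finset.Icc 1 M, a j * derivative^[j] (B k) = 0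

/-! ### real rooted polynomials -/

theorem RealRooted.ne_zero {p : ℝ[X]} (h : RealRooted p) : p ≠ 0 := by
  rintro rfl
  have := h Complex.I (by simp)
  simp at this

theorem realRooted_C {c : ℝ} (hc : c ≠ 0) : RealRooted (C c) := by
  intro z hz
  rw [aeval_C] at hz
  exact absurd hz (by simpa using hc)

theorem RealRooted.ind {P : ℝ[X] → Prop} (hC : ∀ c : ℝ, c ≠ 0 → P (C c))
    (hmul : ∀ (r : ℝ) (s : ℝ[X]), RealRooted s → P s → P ((X - C r) * s)) :
    ∀ p, RealRooted p → P p := by
  suffices h : ∀ (n : ℕ) (p : ℝ[X]), p.natDegree = n → RealRooted p → P p from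
    fun p hp => h _ p rfl hp
  intro n
  induction n with
  | zero =>
    intro p hn hp
    rw [eq_C_of_natDegree_eq_zero hn]
    apply hC
    intro h0
    apply hp.ne_zero
    rw [eq_C_of_natDegree_eq_zero hn, h0, C_0]
  | succ n ih =>
    intro p hn hp
    have hdeg : p.degree ≠ 0 := by
      intro h
      rw [natDegree_eq_zero_iff_degree_le_zero.2 h.le] at hn
      exact absurd hn (by omega)
    obtain ⟨z, hz⟩ := IsAlgClosed.exists_aeval_eq_zero ℂ p hdeg
    have him := hp z hz
    have hzr : z = ((z.re : ℝ) : ℂ) := Complex.ext rfl (by simpa using him)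
    have hroot : p.eval z.re = 0 := by
      rw [hzr] at hz
      have h1 : aeval ((z.re : ℝ) : ℂ) p = ((p.eval z.re : ℝ) : ℂ) := by
        rw [← Complex.coe_algebraMap, aeval_algebraMap_apply, coe_aeval_eq_eval]
      rw [h1] at hz
      exact_mod_cast hz
    obtain ⟨s, hs⟩ := dvd_iff_isRoot.2 hroot
    have hs0 : s ≠ 0 := by
      rintro rfl
      exact hp.ne_zero (by rw [hs, mul_zero])
    have hsn : s.natDegree = n := by
      rw [hs, natDegree_mul (X_sub_C_ne_zero _) hs0, natDegree_X_sub_C] at hn
      omega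
    have hsr : RealRooted s := by
      intro w hw
      apply hp w
      rw [hs, map_mul, hw, mul_zero]
    rw [hs]
    exact hmul _ _ hsr (ih s hsn hsr)

/-- Laguerre's inequality -/
theorem laguerre (p : ℝ[X]) (hp : RealRooted p) (x : ℝ) :
    0 ≤ (derivative p).eval x ^ 2 - p.eval x * (derivative (derivative p)).eval x := by
  revert x
  refine RealRooted.ind (P := fun p => ∀ x : ℝ,
    0 ≤ (derivative p).eval x ^ 2 - p.eval x * (derivative (derivative p)).eval x) ?_ ?_ p hp
  · intro c hc x
    simp
  · intro r s _ ih x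
    have h := ih x
    have e : (derivative ((X - C r) * s)).eval x ^ 2 -
        ((X - C r) * s).eval x * (derivative (derivative ((X - C r) * s))).eval x =
        s.eval x ^ 2 + (x - r) ^ 2 *
          ((derivative s).eval x ^ 2 - s.eval x * (derivative (derivative s)).eval x) := by
      simp only [derivative_mul, derivative_sub, derivative_X, derivative_C, sub_zero, one_mul,
        derivative_add, eval_add, eval_mul, eval_sub, eval_X, eval_C]
      ring
    rw [e]
    positivity

/-- the logarithmic derivative of a real rooted polynomial maps the half plane to the other one -/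
theorem im_le (p : ℝ[X]) (hp : RealRooted p) (z : ℂ) :
    (aeval z (derivative p) * (starRingEnd ℂ) (aeval z p)).im * z.im ≤ 0 := by
  refine RealRooted.ind (P := fun p =>
    (aeval z (derivative p) * (starRingEnd ℂ) (aeval z p)).im * z.im ≤ 0) ?_ ?_ p hp
  · intro c hc
    simp
  · intro r s _ ih
    set u := aeval z s with hu
    set v := aeval z (derivative s) with hv
    have e1 : aeval z (derivative ((X - C r) * s)) = u + (z - r) * v := by
      simp only [derivative_mul, derivative_X, derivative_C, sub_zero, one_mul,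
        map_add, map_mul, map_sub, aeval_X, aeval_C, Complex.coe_algebraMap, ← hu, ← hv]
    have e2 : aeval z ((X - C r) * s) = (z - r) * u := by
      simp only [map_mul, map_sub, aeval_X, aeval_C, Complex.coe_algebraMap, ← hu]
    rw [e1, e2]
    have e3 : ((u + (z - r) * v) * (starRingEnd ℂ) ((z - r) * u)).im =
        - (Complex.normSq u * z.im) + Complex.normSq (z - r) * (v * (starRingEnd ℂ) u).im := by
      simp only [Complex.normSq_apply, map_mul, map_sub, Complex.conj_ofReal, Complex.mul_im,
        Complex.mul_re, Complex.add_re, Complex.add_im, Complex.sub_re, Complex.sub_im,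
        Complex.conj_re, Complex.conj_im, Complex.ofReal_re, Complex.ofReal_im]
      ring
    rw [e3]
    have h1 := Complex.normSq_nonneg u
    have h2 := Complex.normSq_nonneg (z - r)
    have h3 : Complex.normSq (z - r) * ((v * (starRingEnd ℂ) u).im * z.im) ≤ 0 :=
      mul_nonpos_of_nonneg_of_nonpos h2 ih
    nlinarith [mul_nonneg h1 (sq_nonneg z.im)]

/-- `q ↦ (x - a) q - q'` keeps real rootedness -/
theorem realRooted_step {q : ℝ[X]} (hq : RealRooted q) (a : ℝ) :
    RealRooted ((X - C a) * q - derivative q) := by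
  intro z hz
  by_contra him
  have hne : aeval z q ≠ 0 := fun h => him (hq z h)
  have h1 : aeval z (derivative q) = (z - a) * aeval z q := by
    simp only [map_sub, map_mul, aeval_X, aeval_C, Complex.coe_algebraMap] at hz
    linear_combination -hz
  have h2 := im_le q hq z
  rw [h1, mul_assoc, Complex.mul_conj] at h2
  have e : ((z - (a : ℂ)) * ((Complex.normSq (aeval z q) : ℝ) : ℂ)).im =
      z.im * Complex.normSq (aeval z q) := by
    simp [Complex.mul_im]
  rw [e] at h2
  have h3 : 0 < Complex.normSq (aeval z q) := Complex.normSq_pos.2 hne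
  have h4 : 0 < z.im ^ 2 := by positivity
  nlinarith

/-- `q ↦ (x - a) q - q'` keeps the zeros simple -/
theorem simple_step {q : ℝ[X]} (hq : RealRooted q)
    (hs : ∀ x : ℝ, q.eval x = 0 → (derivative q).eval x ≠ 0) (a : ℝ) (x : ℝ)
    (hx : ((X - C a) * q - derivative q).eval x = 0) :
    (derivative ((X - C a) * q - derivative q)).eval x ≠ 0 := by
  intro h
  simp only [derivative_mul, derivative_sub, derivative_X, derivative_C, sub_zero, one_mul,
    eval_add, eval_mul, eval_sub, eval_X, eval_C] at hx h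
  have hL := laguerre q hq x
  have hne : q.eval x ≠ 0 := by
    intro h0
    rw [h0] at hx
    exact hs x h0 (by linarith)
  have h1 : (derivative q).eval x = (x - a) * q.eval x := by linarith
  have h2 : (derivative (derivative q)).eval x = q.eval x + (x - a) * (derivative q).eval x := by
    linarith
  rw [h2, h1] at hL
  have h3 : 0 < q.eval x ^ 2 := by positivity
  nlinarith

/-! ### the operator `e^{-D²/2}` -/

/-- the operator `e^{-D²/2}`, mapping `x^n` to the `n`-th Hermite polynomial -/
noncomputable def E : ℝ[X] →ₗ[ℝ] ℝ[X] where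
  toFun p := p.sum fun (n : ℕ) (a : ℝ) => (a • (hermite n).map (Int.castRingHom ℝ) : ℝ[X])
  map_add' p q :=
    sum_add_index p q _ (fun i => zero_smul ℝ ((hermite i).map (Int.castRingHom ℝ)))
      (fun i a b => add_smul a b ((hermite i).map (Int.castRingHom ℝ)))
  map_smul' c p := by
    simp only [RingHom.id_apply]
    rw [sum_smul_index p c _ (by intro i; exact zero_smul _ _), sum, sum, Finset.smul_sum]
    exact Finset.sum_congr rfl fun i _ => mul_smul _ _ _

theorem E_monomial (n : ℕ) (a : ℝ) :
    E (monomial n a) = a • (hermite n).map (Int.castRingHom ℝ) := by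
  have h : E (monomial n a) = (monomial n a).sum
      (fun (n : ℕ) (a : ℝ) => (a • (hermite n).map (Int.castRingHom ℝ) : ℝ[X])) := rfl
  rw [h, sum_monomial_index _ _ (by exact zero_smul _ _)]

theorem E_X_pow (n : ℕ) : E (X ^ n) = (hermite n).map (Int.castRingHom ℝ) := by
  rw [X_pow_eq_monomial, E_monomial, one_smul]

theorem E_C (c : ℝ) : E (C c) = C c := by
  rw [← monomial_zero_left, E_monomial, hermite_zero]
  simp [smul_eq_C_mul]

theorem E_X_mul (p : ℝ[X]) : E (X * p) = X * E p - derivative (E p) := by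
  induction p using Polynomial.induction_on' with
  | add p q hp hq => rw [mul_add, map_add, hp, hq, map_add, map_add]; ring
  | monomial n a =>
    rw [X_mul_monomial, E_monomial, E_monomial, hermite_succ, derivative_smul, derivative_map,
      Polynomial.map_sub, Polynomial.map_mul, Polynomial.map_X, smul_sub, mul_smul_comm]

theorem E_X_sub_C_mul (r : ℝ) (p : ℝ[X]) : E ((X - C r) * p) = (X - C r) * E p - derivative (E p) := by
  rw [sub_mul, map_sub, E_X_mul, ← smul_eq_C_mul, map_smul, smul_eq_C_mul]
  ring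

theorem E_realRooted (p : ℝ[X]) (hp : RealRooted p) : RealRooted (E p) ∧
    ∀ x : ℝ, (E p).eval x = 0 → (derivative (E p)).eval x ≠ 0 := by
  refine RealRooted.ind (P := fun p => RealRooted (E p) ∧
    ∀ x : ℝ, (E p).eval x = 0 → (derivative (E p)).eval x ≠ 0) ?_ ?_ p hp
  · intro c hc
    rw [E_C]
    exact ⟨realRooted_C hc, fun x hx => absurd (by simpa using hx) hc⟩
  · intro r s _ ih
    rw [E_X_sub_C_mul]
    exact ⟨realRooted_step ih.1 r, fun x hx => simple_step ih.1 ih.2 r x hx⟩

/-! ### the operator `T` -/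

/-- `T p = 2 (E p)(0) + (E p)'(0) x` -/
noncomputable def T : ℝ[X] →ₗ[ℝ] ℝ[X] where
  toFun p := C (2 * (E p).eval 0) + C ((derivative (E p)).eval 0) * X
  map_add' p q := by
    simp only [map_add, eval_add, mul_add]
    ring
  map_smul' c p := by
    rw [map_smul, derivative_smul, eval_smul, eval_smul, smul_eq_mul, smul_eq_mul]
    simp only [RingHom.id_apply, smul_eq_C_mul, C_mul]
    ring

theorem T_apply (p : ℝ[X]) :
    T p = C (2 * (E p).eval 0) + C ((derivative (E p)).eval 0) * X := rfl

theorem T_preserver : HyperbolicityPreserver T := by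
  intro p hp z hz
  obtain ⟨_, h2⟩ := E_realRooted p hp
  rw [T_apply] at hz
  simp only [map_add, map_mul, aeval_C, aeval_X, Complex.coe_algebraMap] at hz
  have him := congrArg Complex.im hz
  have hre := congrArg Complex.re hz
  simp [Complex.add_im, Complex.mul_im] at him hre
  rcases him with h | h
  · rw [h] at hre
    have h0 : (E p).eval 0 = 0 := by simpa using hre
    exact absurd h (h2 0 h0)
  · exact h

/-! ### the basis -/

/-- the polynomials `e^{D²/2} x^k` -/
noncomputable def B : ℕ → ℝ[X]
  | 0 => 1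
  | k + 1 => X * B k + derivative (B k)

theorem B_succ (k : ℕ) : B (k + 1) = X * B k + derivative (B k) := rfl

theorem B_deriv (k : ℕ) : derivative (B (k + 1)) = ((k + 1 : ℕ) : ℝ[X]) * B k := by
  induction k with
  | zero => simp [B]
  | succ k ih =>
    rw [B_succ (k + 1), derivative_add, derivative_mul, derivative_X, one_mul, ih,
      derivative_mul, derivative_natCast, zero_mul, zero_add]
    rw [B_succ k]
    push_cast
    ring

theorem B_eigen (k : ℕ) : derivative (derivative (B k)) + X * derivative (B k) =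
    (k : ℝ[X]) * B k := by
  cases k with
  | zero => simp [B]
  | succ k =>
    rw [B_deriv, derivative_mul, derivative_natCast, zero_mul, zero_add, B_succ k]
    push_cast
    ring

theorem B_monic (k : ℕ) : (B k).Monic ∧ (B k).natDegree = k := by
  induction k with
  | zero => exact ⟨monic_one, natDegree_one⟩
  | succ k ih =>
    have h1 : (X * B k).Monic := monic_X.mul ih.1
    have h2 : (X * B k).natDegree = k + 1 := by
      rw [monic_X.natDegree_mul ih.1, natDegree_X, ih.2, add_comm]
    have h3 : (derivative (B k)).degree < (X * B k).degree := by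
      rw [degree_eq_natDegree h1.ne_zero, h2]
      refine lt_of_le_of_lt (degree_derivative_le) ?_
      rw [degree_eq_natDegree ih.1.ne_zero, ih.2]
      exact_mod_cast Nat.lt_succ_self k
    rw [B_succ]
    exact ⟨h1.add_of_left h3, by rw [natDegree_add_eq_left_of_degree_lt h3, h2]⟩

theorem B_degree (k : ℕ) : (B k).degree = k := by
  rw [degree_eq_natDegree (B_monic k).1.ne_zero, (B_monic k).2]

theorem B_admissible : Admissible B := by
  refine ⟨B_degree, 2, fun j => if j = 1 then X else 1, fun k => -(k : ℝ), by norm_num, by simp, ?_⟩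
  intro k
  rw [show Finset.Icc 1 2 = {1, 2} from rfl, Finset.sum_pair (by norm_num)]
  simp only [if_true, Function.iterate_succ, Function.comp_apply,
    Function.iterate_zero, id]
  rw [if_neg (by norm_num), one_mul]
  have := B_eigen k
  rw [C_neg]
  have hc : C (k : ℝ) = (k : ℝ[X]) := by simp
  rw [hc]
  linear_combination this

theorem E_B (k : ℕ) : E (B k) = X ^ k := by
  induction k using Nat.strong_induction_on with
  | _ k ih =>
    match k with
    | 0 =>
      have : E (B 0) = E (C 1) := by simp [B]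
      rw [this, E_C]; simp
    | 1 =>
      have : B 1 = X * C 1 := by simp [B]
      rw [this, E_X_mul, E_C]; simp
    | k + 2 =>
      rw [B_succ (k + 1), map_add, E_X_mul, ih (k + 1) (by omega), B_deriv]
      have h1 : E (((k + 1 : ℕ) : ℝ[X]) * B k) = ((k + 1 : ℕ) : ℝ[X]) * E (B k) := by
        have hc : (((k + 1 : ℕ) : ℝ[X])) = C (((k + 1 : ℕ) : ℝ)) := by simp
        rw [hc, ← smul_eq_C_mul, map_smul, smul_eq_C_mul]
      rw [h1, ih k (by omega), derivative_X_pow]
      simp only [Nat.cast_add, Nat.cast_one, Nat.add_sub_cancel, map_add, map_one, map_natCast]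
      ring

/-- the eigenvalues `2, 1, 0, 0, …` -/
noncomputable def γ (k : ℕ) : ℝ := if k = 0 then 2 else if k = 1 then 1 else 0

theorem T_B (k : ℕ) : T (B k) = γ k • B k := by
  rw [T_apply, E_B]
  match k with
  | 0 => simp [γ, B, smul_eq_C_mul]
  | 1 => simp [γ, B]
  | k + 2 =>
    simp [γ]

/-! ### the coefficients `Q_k` -/

/-- the coefficients of a linear operator, by recursion -/
noncomputable def Qc (T : ℝ[X] →ₗ[ℝ] ℝ[X]) (n : ℕ) : ℝ[X] :=
  ((n.factorial : ℝ)⁻¹) • (T (X ^ n) - ∑ k : Fin n, Qc T k * derivative^[k] (X ^ n))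
termination_by n
decreasing_by exact k.2

theorem Qc_eq (T : ℝ[X] →ₗ[ℝ] ℝ[X]) (n : ℕ) : Qc T n =
    ((n.factorial : ℝ)⁻¹) • (T (X ^ n) - ∑ k ∈ Finset.range n, Qc T k * derivative^[k] (X ^ n)) := by
  rw [Qc, Finset.sum_range]

theorem Qc_X_pow (T : ℝ[X] →ₗ[ℝ] ℝ[X]) (n : ℕ) :
    T (X ^ n) = ∑ k ∈ Finset.range (n + 1), Qc T k * derivative^[k] (X ^ n) := by
  rw [Finset.sum_range_succ, Qc_eq T n, iterate_derivative_X_pow_eq_smul, Nat.descFactorial_self,
    Nat.sub_self, pow_zero]
  have hf : (n.factorial : ℝ) ≠ 0 := by exact_mod_cast Nat.factorial_ne_zero n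
  rw [smul_mul_assoc, mul_smul_comm, mul_one, smul_smul, inv_mul_cancel₀ hf, one_smul]
  ring

theorem Qc_represents (T : ℝ[X] →ₗ[ℝ] ℝ[X]) : Represents (Qc T) T := by
  have key : ∀ (N : ℕ) (p : ℝ[X]), p.natDegree < N →
      T p = ∑ k ∈ Finset.range N, Qc T k * derivative^[k] p := by
    intro N p hp
    rw [p.as_sum_range' N hp, map_sum]
    have h1 : ∀ k, derivative^[k] (∑ i ∈ Finset.range N, monomial i (p.coeff i)) =
        ∑ i ∈ Finset.range N, p.coeff i • derivative^[k] (X ^ i) := by
      intro k
      rw [iterate_derivative_sum]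
      refine Finset.sum_congr rfl fun i _ => ?_
      rw [← iterate_derivative_smul, smul_X_eq_monomial]
    simp only [h1, Finset.mul_sum]
    rw [Finset.sum_comm]
    refine Finset.sum_congr rfl fun i hi => ?_
    rw [← smul_X_eq_monomial, map_smul, Qc_X_pow, Finset.smul_sum]
    have hsub : Finset.range (i + 1) ⊆ Finset.range N :=
      Finset.range_subset_range.2 (Finset.mem_range.1 hi)
    rw [← Finset.sum_subset hsub]
    · exact Finset.sum_congr rfl fun k _ => (mul_smul_comm _ _ _).symm
    · intro k _ hk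
      rw [Finset.mem_range, not_lt] at hk
      rw [iterate_derivative_eq_zero (by rw [natDegree_X_pow]; omega), smul_zero, mul_zero]
  intro p
  exact key _ p (Nat.lt_succ_self _)

theorem Q0 : Qc T 0 = C 2 := by
  rw [Qc_eq]
  have h : E (X ^ 0) = 1 := by rw [E_X_pow]; simp
  simp only [Nat.factorial_zero, Nat.cast_one, inv_one, one_smul, Finset.range_zero,
    Finset.sum_empty, sub_zero]
  rw [T_apply, h]
  simp

theorem Q1 : Qc T 1 = - X := by
  rw [Qc_eq]
  have h : E (X ^ 1) = X := by rw [E_X_pow]; simp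
  simp only [Nat.factorial_one, Nat.cast_one, inv_one, one_smul, Finset.range_one,
    Finset.sum_singleton, Function.iterate_zero, id, Q0]
  rw [T_apply, h]
  simp only [eval_X, mul_zero, C_0, zero_add, derivative_X, eval_one, C_1, one_mul, pow_one]
  have : (C (2 : ℝ) : ℝ[X]) = 2 := rfl
  rw [this]
  ring

theorem Q2 : Qc T 2 = C (-1) := by
  rw [Qc_eq]
  have h : E (X ^ 2) = X ^ 2 - 1 := by
    rw [E_X_pow, hermite_succ, hermite_one]
    simp
    ring
  rw [Finset.sum_range_succ, Finset.sum_range_one, Q0, Q1, T_apply, h]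
  have h2 : (C (2 : ℝ) : ℝ[X]) = 2 := rfl
  simp only [Function.iterate_zero, id, Function.iterate_one, eval_sub, eval_pow, eval_X, eval_one,
    derivative_sub, derivative_one, derivative_X_pow]
  simp
  rw [h2]
  have h3 : (X : ℝ[X]) * (2 * X) = 2 * X ^ 2 := by ring
  rw [h3]
  have h4 : (-2 : ℝ[X]) - (2 * X ^ 2 + -(2 * X ^ 2)) = C (-2) := by
    rw [C_neg, h2]; ring
  rw [h4, smul_C]
  norm_num

theorem Q_eval_zero (n : ℕ) : (Qc T n).eval 0 =
    (n.factorial : ℝ)⁻¹ * (2 * ((hermite n).coeff 0 : ℤ)) := by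
  rw [Qc_eq, eval_smul, smul_eq_mul, eval_sub, eval_finsetSum]
  have h1 : ∑ k ∈ Finset.range n, (Qc T k * derivative^[k] (X ^ n : ℝ[X])).eval 0 = 0 := by
    apply Finset.sum_eq_zero
    intro k hk
    rw [Finset.mem_range] at hk
    rw [eval_mul, iterate_derivative_X_pow_eq_smul]
    have : ((X : ℝ[X]) ^ (n - k)).eval 0 = 0 := by
      rw [eval_pow, eval_X, zero_pow (by omega)]
    rw [eval_smul, this, smul_zero, mul_zero]
  rw [h1, sub_zero, T_apply, E_X_pow]
  congr 1
  simp only [eval_add, eval_C, eval_mul, eval_X, mul_zero, add_zero]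
  congr 1
  rw [← coeff_zero_eq_eval_zero, coeff_map]
  rfl

theorem infiniteOrder : InfiniteOrder (Qc T) := by
  refine Set.infinite_of_injective_forall_mem (f := fun n : ℕ => 2 * n) (fun a b h => by
    simpa using h) ?_
  intro n h
  have h1 := Q_eval_zero (2 * n)
  have h2 := coeff_hermite_explicit n 0
  rw [add_zero] at h2
  rw [h, eval_zero, h2] at h1
  have h3 : (((2 * n).factorial : ℝ)⁻¹ * (2 * (((-1) ^ n * (Nat.doubleFactorial (2 * n - 1) : ℤ) *
      (Nat.choose (2 * n) 0 : ℤ) : ℤ) : ℝ))) ≠ 0 := by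
    apply mul_ne_zero
    · exact inv_ne_zero (by exact_mod_cast Nat.factorial_ne_zero _)
    · apply mul_ne_zero two_ne_zero
      rw [Int.cast_ne_zero]
      simp only [Nat.choose_zero_right, Nat.cast_one, mul_one]
      apply mul_ne_zero
      · exact pow_ne_zero _ (by norm_num)
      · exact_mod_cast (Nat.doubleFactorial_pos _).ne'
  exact h3 (by exact_mod_cast h1.symm)

/-- There are an admissible basis and an infinite-order hyperbolicity preserver, diagonal with
respect to it, that is not monotone: its first coefficients are `2, -x, -1`. -/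
theorem result : ∃ (B : ℕ → ℝ[X]) (T : ℝ[X] →ₗ[ℝ] ℝ[X]) (γ : ℕ → ℝ) (Q : ℕ → ℝ[X]),
    Admissible B ∧ (∀ k, T (B k) = γ k • B k) ∧ HyperbolicityPreserver T ∧ Represents Q T ∧
    InfiniteOrder Q ∧ Q 1 = -X ∧ Q 2 = C (-1) ∧ ¬ IsMonotone Q := by
  refine ⟨B, T, γ, Qc T, B_admissible, T_B, T_preserver, Qc_represents T, infiniteOrder, Q1, Q2, ?_⟩
  intro h
  have h1 := h 1 (by rw [Q1]; simp)
  rw [Q1, Q2, degree_neg, degree_X, degree_C (by norm_num)] at h1
  exact absurd h1 (by norm_num)

end Pool.Agent.Results.MP_f79668_an.NotMonotone
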